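import Mathlib
import Pool.Agent.Helper8.Lie.Semisimple
import Pool.Agent.Helper8.Lie.TopLevel

/-!
Separation of ideals by a module on which a Lie algebra acts through all endomorphisms of trace
zero.
-/

namespace Pool.Agent.Helper24.Sep

open Module

attribute [local instance 100] LieRing.ofAssociativeRing

set_option linter.unusedSectionVars false

section alg

variable {W : Type*} [AddCommGroup W] [Module ℂ W]

/-- the endomorphism of rank one given by a functional and a vector -/
noncomputable def rk (φ : Dual ℂ W) (u : W) : Module.End ℂ W := φ.smulRight u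

@[simp] lemma rk_apply (φ : Dual ℂ W) (u v : W) : rk φ u v = φ v • u := rfl

/-- a subspace stable under the commutators with all endomorphisms of trace zero -/
def Stable (N : Submodule ℂ (Module.End ℂ W)) : Prop :=
  ∀ (A B : Module.End ℂ W), B ∈ N → A * B - B * A ∈ N

lemma exists_fun [FiniteDimensional ℂ W] (U : Submodule ℂ W) (v : W) (hv : v ∉ U) :
    ∃ φ : Dual ℂ W, (∀ u ∈ U, φ u = 0) ∧ φ v = 1 := by
  obtain ⟨f, hf, hfU⟩ := Submodule.exists_le_ker_of_notMem hv
  refine ⟨(f v)⁻¹ • f, fun u hu => ?_, ?_⟩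
  · rw [LinearMap.smul_apply, LinearMap.mem_ker.mp (hfU hu), smul_zero]
  · rw [LinearMap.smul_apply, smul_eq_mul, inv_mul_cancel₀ hf]

variable [FiniteDimensional ℂ W] {N : Submodule ℂ (Module.End ℂ W)}

lemma exists_rk (hN : Stable N) (T : Module.End ℂ W) (hT : T ∈ N) (u : W)
    (hu : T u ∉ Submodule.span ℂ {u}) :
    ∃ φ : Dual ℂ W, φ u = 0 ∧ φ ≠ 0 ∧ rk φ u ∈ N := by
  obtain ⟨φ, h1, h2⟩ := exists_fun _ _ hu
  have h3 : φ u = 0 := h1 u (Submodule.mem_span_singleton_self u)
  refine ⟨φ, h3, ?_, ?_⟩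
  · rintro rfl
    simp at h2
  · have h4 := hN (rk φ u) _ (hN (rk φ u) T hT)
    have h5 : rk φ u * (rk φ u * T - T * rk φ u) - (rk φ u * T - T * rk φ u) * rk φ u =
        (-2 : ℂ) • rk φ u := by
      apply LinearMap.ext
      intro v
      have e1 : φ (T (φ v • u)) = φ v := by rw [map_smul, map_smul, h2, smul_eq_mul, mul_one]
      have e2 : φ (φ (T v) • u) = 0 := by rw [map_smul, h3, smul_zero]
      have e3 : φ (φ v • u) = 0 := by rw [map_smul, h3, smul_zero]
      simp only [LinearMap.sub_apply, Module.End.mul_apply, rk_apply, LinearMap.smul_apply,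
        map_sub, e1, e2, e3, zero_smul, map_zero]
      module
    rw [h5] at h4
    have h6 := N.smul_mem (-2 : ℂ)⁻¹ h4
    rw [smul_smul, inv_mul_cancel₀ (by norm_num), one_smul] at h6
    exact h6

/-- from one functional to another one -/
lemma change_fun (hN : Stable N) {φ : Dual ℂ W} {u : W} (hφ : φ ≠ 0) (hu : u ≠ 0)
    (h : rk φ u ∈ N) (ψ : Dual ℂ W) (hψ : ψ u = 0) : rk ψ u ∈ N := by
  obtain ⟨w, hw⟩ : ∃ w, φ w ≠ 0 := by
    by_contra hcon
    push Not at hcon
    exact hφ (LinearMap.ext hcon)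
  obtain ⟨χ, -, hχ⟩ := exists_fun (⊥ : Submodule ℂ W) u (by simpa using hu)
  have h1 := hN (rk χ w) _ h
  have h2 := hN (rk (χ + ψ) w) _ h
  have h3 : (rk χ w * rk φ u - rk φ u * rk χ w) -
      (rk (χ + ψ) w * rk φ u - rk φ u * rk (χ + ψ) w) = φ w • rk ψ u := by
    apply LinearMap.ext
    intro v
    simp only [LinearMap.sub_apply, Module.End.mul_apply, rk_apply, LinearMap.smul_apply,
      map_smul, LinearMap.add_apply, hψ, hχ, add_zero, smul_eq_mul, mul_one]
    module
  have h4 := N.sub_mem h1 h2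
  rw [h3] at h4
  have h5 := N.smul_mem (φ w)⁻¹ h4
  rwa [smul_smul, inv_mul_cancel₀ hw, one_smul] at h5

/-- from one vector to another one -/
lemma change_vec (hN : Stable N) {φ : Dual ℂ W} {u : W} (hu : u ≠ 0)
    (h : rk φ u ∈ N) (w : W) (hw : φ w = 0) : rk φ w ∈ N := by
  obtain ⟨χ, -, hχ⟩ := exists_fun (⊥ : Submodule ℂ W) u (by simpa using hu)
  have h1 := hN (rk χ w) _ h
  have h3 : rk χ w * rk φ u - rk φ u * rk χ w = rk φ w := by
    apply LinearMap.ext
    intro v
    simp only [LinearMap.sub_apply, Module.End.mul_apply, rk_apply,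
      map_smul, hw, hχ, zero_smul, smul_zero, sub_zero, one_smul]
  rwa [h3] at h1

/-- in dimension at least three -/
lemma all_rk (hd : 3 ≤ finrank ℂ W) (hN : Stable N) {φ : Dual ℂ W} {u : W} (hφ : φ ≠ 0)
    (hu : u ≠ 0) (h : rk φ u ∈ N) (ψ : Dual ℂ W) (w : W) (hψ : ψ w = 0) : rk ψ w ∈ N := by
  by_cases hw : w = 0
  · have h1 : rk ψ w = 0 := by
      apply LinearMap.ext
      intro v
      rw [rk_apply, hw, smul_zero, LinearMap.zero_apply]
    rw [h1]
    exact N.zero_mem
  obtain ⟨χ, h1, h2, h3⟩ : ∃ χ : Dual ℂ W, χ u = 0 ∧ χ w = 0 ∧ χ ≠ 0 := by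
    have hlt : Submodule.span ℂ {u, w} ≠ ⊤ := by
      intro htop
      have h1 : finrank ℂ (Submodule.span ℂ {u, w}) ≤ 2 := by
        classical
        have h2 := finrank_span_finset_le_card (R := ℂ) (insert u {w} : Finset W)
        have h3 : (((insert u {w} : Finset W)) : Set W) = {u, w} := by simp
        rw [h3] at h2
        exact h2.trans Finset.card_le_two
      rw [htop, finrank_top] at h1
      omega
    obtain ⟨v, hv⟩ : ∃ v, v ∉ Submodule.span ℂ {u, w} := by
      by_contra hcon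
      push Not at hcon
      exact hlt (Submodule.eq_top_iff'.mpr hcon)
    obtain ⟨χ, h1, h2⟩ := exists_fun _ _ hv
    refine ⟨χ, h1 u (Submodule.subset_span (by simp)), h1 w (Submodule.subset_span (by simp)), ?_⟩
    rintro rfl
    simp at h2
  exact change_fun hN h3 hw (change_vec hN hu (change_fun hN hφ hu h χ h1) w h2) ψ hψ

/-- the endomorphisms of rank one and trace zero span -/
lemma mem_of_rk (hN : ∀ (ψ : Dual ℂ W) (w : W), ψ w = 0 → rk ψ w ∈ N) (Y : Module.End ℂ W)
    (hY : LinearMap.trace ℂ W Y = 0) : Y ∈ N := by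
  classical
  obtain ⟨m, hm⟩ : ∃ m, finrank ℂ W = m := ⟨_, rfl⟩
  let b : Basis (Fin m) ℂ W := Module.finBasisOfFinrankEq ℂ W hm
  have hb : ∀ i j, b.coord i (b j) = if i = j then 1 else 0 := by
    intro i j
    rw [Basis.coord_apply, Basis.repr_self, Finsupp.single_apply]
    simp [eq_comm]
  -- the off-diagonal elements
  have h1 : ∀ i j, i ≠ j → rk (b.coord i) (b j) ∈ N := fun i j hij => hN _ _ (by
    rw [hb, if_neg hij])
  -- the differences of diagonal elements
  have h2 : ∀ i j, rk (b.coord i) (b i) - rk (b.coord j) (b j) ∈ N := by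
    intro i j
    by_cases hij : i = j
    · rw [hij, sub_self]; exact N.zero_mem
    have h3 := hN (b.coord i + b.coord j) (b i - b j) (by
      simp only [LinearMap.add_apply, map_sub, hb, if_true, if_neg hij, if_neg (Ne.symm hij)]
      ring)
    have h4 : rk (b.coord i) (b i) - rk (b.coord j) (b j) =
        rk (b.coord i + b.coord j) (b i - b j) + rk (b.coord i) (b j) - rk (b.coord j) (b i) := by
      apply LinearMap.ext
      intro v
      simp only [LinearMap.sub_apply, LinearMap.add_apply, rk_apply]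
      module
    rw [h4]
    exact N.sub_mem (N.add_mem h3 (h1 i j hij)) (h1 j i (Ne.symm hij))
  -- the expansion
  have h3 : Y = ∑ i, ∑ j, b.coord j (Y (b i)) • rk (b.coord i) (b j) := by
    refine b.ext fun l => ?_
    simp only [LinearMap.sum_apply, LinearMap.smul_apply, rk_apply, hb]
    rw [Finset.sum_eq_single l]
    · simp only [if_true, one_smul]
      exact (b.sum_repr (Y (b l))).symm
    · intro i _ hi
      simp [hi]
    · intro h; exact absurd (Finset.mem_univ _) h
  have h4 : ∑ i, b.coord i (Y (b i)) = 0 := by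
    have h5 := LinearMap.trace_eq_matrix_trace ℂ b Y
    rw [hY, Matrix.trace] at h5
    rw [← h5.symm]
    refine Finset.sum_congr rfl fun i _ => ?_
    rw [Matrix.diag_apply, LinearMap.toMatrix_apply, Basis.coord_apply]
  rcases Nat.eq_zero_or_pos m with h0 | h0
  · subst h0
    rw [h3]
    simp
  let z : Fin m := ⟨0, h0⟩
  have h5 : Y = ∑ i, ((∑ j ∈ Finset.univ.erase i, b.coord j (Y (b i)) • rk (b.coord i) (b j)) +
      b.coord i (Y (b i)) • (rk (b.coord i) (b i) - rk (b.coord z) (b z))) := by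
    have h6 : ∀ i, (∑ j ∈ Finset.univ.erase i, b.coord j (Y (b i)) • rk (b.coord i) (b j)) +
        b.coord i (Y (b i)) • (rk (b.coord i) (b i) - rk (b.coord z) (b z)) =
        (∑ j, b.coord j (Y (b i)) • rk (b.coord i) (b j)) -
          b.coord i (Y (b i)) • rk (b.coord z) (b z) := by
      intro i
      rw [← Finset.sum_erase_add _ _ (Finset.mem_univ i), smul_sub]
      abel
    rw [Finset.sum_congr rfl (fun i _ => h6 i), Finset.sum_sub_distrib, ← h3, ← Finset.sum_smul,
      h4, zero_smul, sub_zero]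
  rw [h5]
  refine N.sum_mem fun i _ => N.add_mem (N.sum_mem fun j hj => N.smul_mem _ (h1 i j ?_))
    (N.smul_mem _ (h2 i z))
  exact (Finset.ne_of_mem_erase hj).symm

/-- a subspace stable under commutators, which is not contained in the scalars, contains the
endomorphisms of trace zero -/
theorem stable_cases (hd : 3 ≤ finrank ℂ W) (hN : Stable N) :
    (∀ T ∈ N, ∃ c : ℂ, T = c • 1) ∨ ∀ Y : Module.End ℂ W, LinearMap.trace ℂ W Y = 0 → Y ∈ N := by
  by_cases h : ∃ T ∈ N, ∃ u, T u ∉ Submodule.span ℂ {u}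
  · right
    obtain ⟨T, hT, u, hu⟩ := h
    obtain ⟨φ, -, h2, h3⟩ := exists_rk hN T hT u hu
    have h0 : u ≠ 0 := by
      rintro rfl
      exact hu (by simp)
    exact fun Y hY => mem_of_rk (fun ψ w hψ => all_rk hd hN h2 h0 h3 ψ w hψ) Y hY
  · left
    push Not at h
    intro T hT
    -- an endomorphism for which all the vectors are eigenvectors
    have h1 : ∀ u, ∃ c : ℂ, T u = c • u := fun u => by
      obtain ⟨c, hc⟩ := Submodule.mem_span_singleton.mp (h T hT u)
      exact ⟨c, hc.symm⟩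
    choose c hc using h1
    have hnt : Nontrivial W := Module.nontrivial_of_finrank_pos (R := ℂ) (by omega)
    obtain ⟨u₀, hu₀⟩ := exists_ne (0 : W)
    refine ⟨c u₀, LinearMap.ext fun v => ?_⟩
    rw [LinearMap.smul_apply, Module.End.one_apply]
    by_cases hv : v ∈ Submodule.span ℂ {u₀}
    · obtain ⟨a, rfl⟩ := Submodule.mem_span_singleton.mp hv
      rw [map_smul, hc u₀, smul_comm]
    · have h2 : LinearIndependent ℂ ![u₀, v] := by
        rw [LinearIndependent.pair_iff' hu₀]
        intro a ha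
        exact hv (ha ▸ Submodule.smul_mem _ _ (Submodule.mem_span_singleton_self u₀))
      have h3 := hc (u₀ + v)
      rw [map_add, hc u₀, hc v, smul_add] at h3
      have h4 : (c u₀ - c (u₀ + v)) • u₀ + (c v - c (u₀ + v)) • v = 0 := by
        rw [sub_smul, sub_smul]
        have := sub_eq_zero.mpr h3
        rw [← this]
        abel
      obtain ⟨h5, h6⟩ := LinearIndependent.pair_iff.mp h2 _ _ h4
      rw [hc v, sub_eq_zero.mp h6, sub_eq_zero.mp h5]

/-- dimension of the space of endomorphisms of trace zero -/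
lemma finrank_sl : finrank ℂ (LinearMap.ker (LinearMap.trace ℂ W)) + 1 ≥
    finrank ℂ W * finrank ℂ W := by
  have h1 := LinearMap.finrank_range_add_finrank_ker (LinearMap.trace ℂ W)
  have h2 : finrank ℂ (LinearMap.range (LinearMap.trace ℂ W)) ≤ 1 := by
    have := Submodule.finrank_le (LinearMap.range (LinearMap.trace ℂ W))
    rwa [Module.finrank_self] at this
  have h3 : finrank ℂ (W →ₗ[ℂ] W) = finrank ℂ W * finrank ℂ W := Module.finrank_linearMap ℂ ℂ W W
  have h4 : finrank ℂ (LinearMap.ker (LinearMap.trace ℂ W)) +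
      finrank ℂ (LinearMap.range (LinearMap.trace ℂ W)) = finrank ℂ W * finrank ℂ W := by
    rw [← h3, ← h1, add_comm]
  omega

end alg

section lie

variable {L : Type*} [LieRing L] [LieAlgebra ℂ L]
  {W : Type*} [AddCommGroup W] [Module ℂ W] [LieRingModule L W] [LieModule ℂ L W]
  [FiniteDimensional ℂ W]

/-- the image of an ideal -/
def im (W : Type*) [AddCommGroup W] [Module ℂ W] [LieRingModule L W] [LieModule ℂ L W]
    (J : LieIdeal ℂ L) : Submodule ℂ (Module.End ℂ W) :=
  (J : Submodule ℂ L).map (LieModule.toEnd ℂ L W : L →ₗ[ℂ] Module.End ℂ W)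

lemma mem_im {J : LieIdeal ℂ L} {Y : Module.End ℂ W} :
    Y ∈ im W J ↔ ∃ a ∈ J, ∀ w : W, ⁅a, w⁆ = Y w := by
  constructor
  · rintro ⟨a, ha, rfl⟩
    exact ⟨a, ha, fun w => rfl⟩
  · rintro ⟨a, ha, h⟩
    exact ⟨a, ha, LinearMap.ext h⟩

variable (hd : 3 ≤ finrank ℂ W)
  (hsl : ∀ Y : Module.End ℂ W, LinearMap.trace ℂ W Y = 0 → ∃ x : L, ∀ w, ⁅x, w⁆ = Y w)
  (htr : ∀ x : L, LinearMap.trace ℂ W (LieModule.toEnd ℂ L W x) = 0)

include hsl in
lemma im_stable (hd : 1 ≤ finrank ℂ W) (J : LieIdeal ℂ L) : Stable (im W J) := by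
  intro A B hB
  obtain ⟨a, ha, hB⟩ := mem_im.mp hB
  have hne : ((finrank ℂ W : ℕ) : ℂ) ≠ 0 := by
    rw [Nat.cast_ne_zero]; omega
  obtain ⟨x, hx⟩ := hsl (A - (LinearMap.trace ℂ W A / finrank ℂ W) • 1) (by
    rw [map_sub, map_smul, LinearMap.trace_one, smul_eq_mul, div_mul_cancel₀ _ hne, sub_self])
  refine mem_im.mpr ⟨⁅x, a⁆, lie_mem_right ℂ L J x a ha, fun w => ?_⟩
  rw [lie_lie, hB, hx, hx, hB]
  simp only [LinearMap.sub_apply, LinearMap.smul_apply, Module.End.one_apply, map_sub, map_smul,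
    Module.End.mul_apply]
  abel

include hd hsl htr in
/-- an ideal acts by zero or through all the endomorphisms of trace zero -/
theorem ideal_cases (J : LieIdeal ℂ L) : (∀ a ∈ J, ∀ w : W, ⁅a, w⁆ = 0) ∨
    ∀ Y : Module.End ℂ W, LinearMap.trace ℂ W Y = 0 → ∃ a ∈ J, ∀ w, ⁅a, w⁆ = Y w := by
  rcases stable_cases hd (im_stable hsl (by omega) J) with h | h
  · left
    intro a ha w
    obtain ⟨c, hc⟩ := h (LieModule.toEnd ℂ L W a) (mem_im.mpr ⟨a, ha, fun w => rfl⟩)
    have h1 := htr a
    rw [hc, map_smul, LinearMap.trace_one, smul_eq_mul] at h1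
    have h2 : c = 0 := by
      rcases mul_eq_zero.mp h1 with h | h
      · exact h
      · rw [Nat.cast_eq_zero] at h
        omega
    have h3 : ⁅a, w⁆ = LieModule.toEnd ℂ L W a w := rfl
    rw [h3, hc, h2, zero_smul, LinearMap.zero_apply]
  · right
    exact fun Y hY => mem_im.mp (h Y hY)

/-- there is an endomorphism of trace zero which is not zero, and is a commutator -/
lemma exists_comm (hd : 3 ≤ finrank ℂ W) : ∃ A B : Module.End ℂ W,
    LinearMap.trace ℂ W A = 0 ∧ LinearMap.trace ℂ W B = 0 ∧ A * B - B * A ≠ 0 := by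
  classical
  obtain ⟨m, hm⟩ : ∃ m, finrank ℂ W = m := ⟨_, rfl⟩
  let b : Basis (Fin m) ℂ W := Module.finBasisOfFinrankEq ℂ W hm
  have hb : ∀ i j, b.coord i (b j) = if i = j then 1 else 0 := by
    intro i j
    rw [Basis.coord_apply, Basis.repr_self, Finsupp.single_apply]
    simp [eq_comm]
  have ht : ∀ i j, i ≠ j → LinearMap.trace ℂ W (rk (b.coord i) (b j)) = 0 := by
    intro i j hij
    rw [LinearMap.trace_eq_matrix_trace ℂ b, Matrix.trace]
    refine Finset.sum_eq_zero fun l _ => ?_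
    rw [Matrix.diag_apply, LinearMap.toMatrix_apply, rk_apply, map_smul, Finsupp.smul_apply,
      ← Basis.coord_apply]
    have h1 : b.coord i (b l) = if i = l then 1 else 0 := hb i l
    have h2 : b.coord l (b j) = if l = j then 1 else 0 := hb l j
    rw [h1, h2]
    by_cases h : i = l
    · subst h
      simp [hij]
    · simp [h]
  let i0 : Fin m := ⟨0, by omega⟩
  let i1 : Fin m := ⟨1, by omega⟩
  have h01 : i0 ≠ i1 := by
    intro h
    have := congrArg Fin.val h
    simp [i0, i1] at this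
  refine ⟨rk (b.coord i0) (b i1), rk (b.coord i1) (b i0), ht _ _ h01, ht _ _ h01.symm, ?_⟩
  intro h
  have h1 := congrArg (fun T : Module.End ℂ W => b.coord i0 (T (b i0))) h
  simp only [LinearMap.sub_apply, Module.End.mul_apply, rk_apply, map_sub, map_smul, hb,
    smul_eq_mul, LinearMap.zero_apply, map_zero, if_neg h01, if_neg h01.symm, if_true] at h1
  norm_num at h1

include hd hsl htr in
/-- finite intersections of ideals which do not act by zero act through all the endomorphisms
of trace zero -/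
theorem exists_ideal {ι : Type*} (T : Finset ι) (J : ι → LieIdeal ℂ L)
    (hJ : ∀ t ∈ T, ¬ ∀ a ∈ J t, ∀ w : W, ⁅a, w⁆ = 0) :
    ∃ J' : LieIdeal ℂ L, (∀ a ∈ J', ∀ t ∈ T, a ∈ J t) ∧
      ∀ Y : Module.End ℂ W, LinearMap.trace ℂ W Y = 0 → ∃ a ∈ J', ∀ w, ⁅a, w⁆ = Y w := by
  classical
  induction T using Finset.induction_on with
  | empty =>
    refine ⟨⊤, fun a _ t ht => absurd ht (Finset.notMem_empty t), fun Y hY => ?_⟩
    obtain ⟨x, hx⟩ := hsl Y hY
    exact ⟨x, LieSubmodule.mem_top x, hx⟩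
  | insert t T ht ih =>
    obtain ⟨J', h1, h2⟩ := ih (fun t' ht' => hJ t' (Finset.mem_insert_of_mem ht'))
    have h3 := (ideal_cases hd hsl htr (J t)).resolve_left
      (hJ t (Finset.mem_insert_self t T))
    refine ⟨J t ⊓ J', fun a ha t' ht' => ?_, ?_⟩
    · rw [LieSubmodule.mem_inf] at ha
      rcases Finset.mem_insert.mp ht' with rfl | ht'
      · exact ha.1
      · exact h1 a ha.2 t' ht'
    · refine (ideal_cases hd hsl htr (J t ⊓ J')).resolve_left fun h => ?_
      obtain ⟨A, B, hA, hB, hAB⟩ := exists_comm (W := W) hd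
      obtain ⟨a, ha, ha'⟩ := h3 A hA
      obtain ⟨c, hc, hc'⟩ := h2 B hB
      apply hAB
      apply LinearMap.ext
      intro w
      have h4 : ⁅a, c⁆ ∈ J t ⊓ J' := by
        rw [LieSubmodule.mem_inf]
        exact ⟨lie_mem_left ℂ L (J t) a c ha, lie_mem_right ℂ L J' a c hc⟩
      have h5 := h _ h4 w
      rw [lie_lie, ha', hc', hc', ha'] at h5
      exact h5

include hd hsl htr in
/-- the same statement for one endomorphism -/
theorem inf_ideals {ι : Type*} (T : Finset ι) (J : ι → LieIdeal ℂ L)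
    (hJ : ∀ t ∈ T, ¬ ∀ a ∈ J t, ∀ w : W, ⁅a, w⁆ = 0) (Y : Module.End ℂ W)
    (hY : LinearMap.trace ℂ W Y = 0) :
    ∃ a : L, (∀ t ∈ T, a ∈ J t) ∧ ∀ w : W, ⁅a, w⁆ = Y w := by
  obtain ⟨J', h1, h2⟩ := exists_ideal hd hsl htr T J hJ
  obtain ⟨a, ha, h3⟩ := h2 Y hY
  exact ⟨a, fun t ht => h1 a ha t ht, h3⟩

include hsl in
/-- a linear map whose kernel acts by zero has a large range -/
theorem le_finrank_range {V : Type*} [AddCommGroup V] [Module ℂ V]
    (A : L →ₗ[ℂ] V) (hA : ∀ a, A a = 0 → ∀ w : W, ⁅a, w⁆ = 0)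
    [FiniteDimensional ℂ (LinearMap.range A)] :
    finrank ℂ W * finrank ℂ W ≤ finrank ℂ (LinearMap.range A) + 1 := by
  let B : L →ₗ[ℂ] Module.End ℂ W := (LieModule.toEnd ℂ L W : L →ₗ[ℂ] Module.End ℂ W)
  have hAB : LinearMap.ker A ≤ LinearMap.ker B := by
    intro a ha
    rw [LinearMap.mem_ker] at ha ⊢
    exact LinearMap.ext (hA a ha)
  have h1 : LinearMap.range ((LinearMap.ker A).liftQ B hAB) = LinearMap.range B :=
    Submodule.range_liftQ _ _ _
  have e := A.quotKerEquivRange
  have : FiniteDimensional ℂ (L ⧸ LinearMap.ker A) := Module.Finite.equiv e.symm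
  have h2 : finrank ℂ (LinearMap.range B) ≤ finrank ℂ (LinearMap.range A) := by
    rw [← h1, ← e.finrank_eq]
    exact LinearMap.finrank_range_le _
  have h3 : LinearMap.ker (LinearMap.trace ℂ W) ≤ LinearMap.range B := by
    intro Y hY
    obtain ⟨x, hx⟩ := hsl Y hY
    exact ⟨x, LinearMap.ext hx⟩
  have h4 : finrank ℂ (LinearMap.ker (LinearMap.trace ℂ W)) ≤ finrank ℂ (LinearMap.range A) :=
    le_trans (Submodule.finrank_mono h3) h2
  have h5 := finrank_sl (W := W)
  omega

include hd hsl htr in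
/-- Separation: a module on which the Lie algebra acts through all the endomorphisms of trace
zero, and finitely many linear maps whose kernels are ideals and which have small ranges. -/
theorem sep_maps {ι : Type*} (T : Finset ι) {V : ι → Type*} [∀ t, AddCommGroup (V t)]
    [∀ t, Module ℂ (V t)] (A : ∀ t, L →ₗ[ℂ] V t)
    (hker : ∀ t ∈ T, ∀ x a : L, A t a = 0 → A t ⁅x, a⁆ = 0)
    (hfin : ∀ t ∈ T, FiniteDimensional ℂ (LinearMap.range (A t)))
    (hsmall : ∀ t ∈ T, finrank ℂ (LinearMap.range (A t)) + 1 < finrank ℂ W * finrank ℂ W)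
    (Y : Module.End ℂ W) (hY : LinearMap.trace ℂ W Y = 0) :
    ∃ a : L, (∀ t ∈ T, A t a = 0) ∧ ∀ w : W, ⁅a, w⁆ = Y w := by
  classical
  let J : T → LieIdeal ℂ L := fun t =>
    { LinearMap.ker (A t.1) with
      lie_mem := fun {x a} ha => hker t.1 t.2 x a ha }
  have hJ : ∀ (t : T) (a : L), a ∈ J t ↔ A t.1 a = 0 := fun t a => Iff.rfl
  obtain ⟨a, h1, h2⟩ := inf_ideals hd hsl htr Finset.univ J (fun t _ h => by
    have hf := hfin t.1 t.2
    have h3 := le_finrank_range hsl (A t.1) (fun a ha => h a ((hJ t a).mpr ha))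
    have h4 := hsmall t.1 t.2
    omega) Y hY
  exact ⟨a, fun t ht => (hJ ⟨t, ht⟩ a).mp (h1 ⟨t, ht⟩ (Finset.mem_univ _)), h2⟩

include hd hsl htr in
/-- Separation for modules: `V t` are modules for which the image of the Lie algebra has dimension
less than that of the endomorphisms of `W` of trace zero. -/
theorem sep_modules {ι : Type*} (T : Finset ι) {V : ι → Type*} [∀ t, AddCommGroup (V t)]
    [∀ t, Module ℂ (V t)] [∀ t, LieRingModule L (V t)] [∀ t, LieModule ℂ L (V t)]
    [∀ t, FiniteDimensional ℂ (V t)]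
    (hsmall : ∀ t ∈ T, finrank ℂ (LinearMap.range
      (LieModule.toEnd ℂ L (V t) : L →ₗ[ℂ] Module.End ℂ (V t))) + 1 <
        finrank ℂ W * finrank ℂ W)
    (Y : Module.End ℂ W) (hY : LinearMap.trace ℂ W Y = 0) :
    ∃ a : L, (∀ t ∈ T, ∀ v : V t, ⁅a, v⁆ = 0) ∧ ∀ w : W, ⁅a, w⁆ = Y w := by
  obtain ⟨a, h1, h2⟩ := sep_maps hd hsl htr T
    (fun t => (LieModule.toEnd ℂ L (V t) : L →ₗ[ℂ] Module.End ℂ (V t)))
    (fun t _ x a ha => by
      have ha' : ∀ v : V t, ⁅a, v⁆ = 0 := fun v => congrArg (fun f : Module.End ℂ (V t) => f v) ha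
      apply LinearMap.ext
      intro v
      show ⁅⁅x, a⁆, v⁆ = 0
      rw [lie_lie, ha', ha', lie_zero, sub_zero])
    (fun t _ => inferInstance) hsmall Y hY
  exact ⟨a, fun t ht v => congrArg (fun f : Module.End ℂ (V t) => f v) (h1 t ht), h2⟩

include hd hsl htr in
/-- Separation for modules of small dimension. -/
theorem sep_of_dim {ι : Type*} (T : Finset ι) {V : ι → Type*} [∀ t, AddCommGroup (V t)]
    [∀ t, Module ℂ (V t)] [∀ t, LieRingModule L (V t)] [∀ t, LieModule ℂ L (V t)]
    [∀ t, FiniteDimensional ℂ (V t)] (hV : ∀ t ∈ T, finrank ℂ (V t) < finrank ℂ W)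
    (Y : Module.End ℂ W) (hY : LinearMap.trace ℂ W Y = 0) :
    ∃ a : L, (∀ t ∈ T, ∀ v : V t, ⁅a, v⁆ = 0) ∧ ∀ w : W, ⁅a, w⁆ = Y w := by
  refine sep_modules hd hsl htr T (fun t ht => ?_) Y hY
  have h1 := Submodule.finrank_le (LinearMap.range
    (LieModule.toEnd ℂ L (V t) : L →ₗ[ℂ] Module.End ℂ (V t)))
  have h2 : finrank ℂ (Module.End ℂ (V t)) = finrank ℂ (V t) * finrank ℂ (V t) :=
    Module.finrank_linearMap ℂ ℂ _ _
  have h3 := hV t ht
  have h4 : (finrank ℂ (V t) + 1) * (finrank ℂ (V t) + 1) ≤ finrank ℂ W * finrank ℂ W :=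
    Nat.mul_le_mul h3 h3
  have h5 : finrank ℂ (V t) * finrank ℂ (V t) + 1 < finrank ℂ W * finrank ℂ W := by
    rcases Nat.eq_zero_or_pos (finrank ℂ (V t)) with h | h
    · rw [h]
      nlinarith
    · nlinarith
  omega

end lie

section killing

variable {L : Type*} [LieRing L] [LieAlgebra ℂ L] [FiniteDimensional ℂ L] [LieAlgebra.IsKilling ℂ L]
  {W : Type*} [AddCommGroup W] [Module ℂ W] [LieRingModule L W] [LieModule ℂ L W]
  [FiniteDimensional ℂ W]

/-- a semisimple Lie algebra acts with trace zero -/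
theorem trace_zero (x : L) : LinearMap.trace ℂ W (LieModule.toEnd ℂ L W x) = 0 := by
  have h1 := Pool.Agent.Helper8.perfect_of_killing x
  induction h1 using Submodule.span_induction with
  | mem z hz =>
    obtain ⟨a, b, rfl⟩ := hz
    rw [LieHom.map_lie, LieRing.of_associative_ring_bracket, map_sub,
      LinearMap.trace_mul_comm, sub_self]
  | zero => rw [map_zero, map_zero]
  | add u v _ _ hu hv => rw [map_add, map_add, hu, hv, add_zero]
  | smul c u _ hu => rw [map_smul, map_smul, hu, smul_zero]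

variable (L W) in
/-- the ideal complementary to the ideal which acts by zero -/
noncomputable def core : LieIdeal ℂ L := (LieModule.ker ℂ L W).killingCompl

variable (W) in
lemma core_sum (x : L) : ∃ a ∈ core L W, ∃ b ∈ LieModule.ker ℂ L W, x = a + b := by
  have h1 := LieIdeal.isCompl_killingCompl (LieModule.ker ℂ L W)
  have h2 : x ∈ LieModule.ker ℂ L W ⊔ core L W := by
    have h3 : LieModule.ker ℂ L W ⊔ core L W = ⊤ := h1.sup_eq_top
    rw [h3]
    exact LieSubmodule.mem_top x
  rw [LieSubmodule.mem_sup] at h2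
  obtain ⟨b, hb, a, ha, h⟩ := h2
  exact ⟨a, ha, b, hb, by rw [← h, add_comm]⟩

lemma core_faithful {a : L} (ha : a ∈ core L W) (h : ∀ w : W, ⁅a, w⁆ = 0) : a = 0 := by
  have h1 := LieIdeal.isCompl_killingCompl (LieModule.ker ℂ L W)
  have h2 : a ∈ LieModule.ker ℂ L W ⊓ core L W := by
    rw [LieSubmodule.mem_inf]
    exact ⟨(LieModule.mem_ker (R := ℂ) (M := W) (x := a)).mpr h, ha⟩
  have h3 : LieModule.ker ℂ L W ⊓ core L W = ⊥ := h1.inf_eq_bot
  rw [h3, LieSubmodule.mem_bot] at h2
  exact h2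

/-- every element of the Lie algebra acts as an element of the complementary ideal -/
lemma core_act (x : L) : ∃ a ∈ core L W, ∀ w : W, ⁅a, w⁆ = ⁅x, w⁆ := by
  obtain ⟨a, ha, b, hb, rfl⟩ := core_sum W x
  refine ⟨a, ha, fun w => ?_⟩
  rw [add_lie, (LieModule.mem_ker (R := ℂ) (M := W) (x := b)).mp hb w, add_zero]

variable (hd : 3 ≤ finrank ℂ W)
  (hsl : ∀ Y : Module.End ℂ W, LinearMap.trace ℂ W Y = 0 → ∃ x : L, ∀ w, ⁅x, w⁆ = Y w)

include hsl in
lemma core_surj (Y : Module.End ℂ W) (hY : LinearMap.trace ℂ W Y = 0) :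
    ∃ a ∈ core L W, ∀ w : W, ⁅a, w⁆ = Y w := by
  obtain ⟨x, hx⟩ := hsl Y hY
  obtain ⟨a, ha, h⟩ := core_act (W := W) x
  exact ⟨a, ha, fun w => by rw [h, hx]⟩

include hsl in
/-- the complementary ideal has the dimension of the space of endomorphisms of trace zero -/
theorem finrank_core (hd : 1 ≤ finrank ℂ W) :
    finrank ℂ (core L W) + 1 = finrank ℂ W * finrank ℂ W := by
  let f : (core L W : Submodule ℂ L) →ₗ[ℂ] LinearMap.ker (LinearMap.trace ℂ W) :=
    { toFun := fun a => ⟨LieModule.toEnd ℂ L W a.1, trace_zero a.1⟩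
      map_add' := fun a b => Subtype.ext (by
        show LieModule.toEnd ℂ L W (a.1 + b.1) = _
        rw [map_add]; rfl)
      map_smul' := fun c a => Subtype.ext (by
        show LieModule.toEnd ℂ L W (c • a.1) = _
        rw [map_smul]; rfl) }
  have h1 : Function.Bijective f := by
    constructor
    · rw [injective_iff_map_eq_zero]
      intro a ha
      have h2 := congrArg Subtype.val ha
      exact Subtype.ext (core_faithful (W := W) a.2 fun w =>
        congrArg (fun g : Module.End ℂ W => g w) h2)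
    · intro Y
      obtain ⟨a, ha, h⟩ := core_surj hsl Y.1 Y.2
      exact ⟨⟨a, ha⟩, Subtype.ext (LinearMap.ext h)⟩
  have h2 := (LinearEquiv.ofBijective f h1).finrank_eq
  have h3 : finrank ℂ (LinearMap.ker (LinearMap.trace ℂ W)) + 1 = finrank ℂ W * finrank ℂ W := by
    have h4 := LinearMap.finrank_range_add_finrank_ker (LinearMap.trace ℂ W)
    have h5 : finrank ℂ (W →ₗ[ℂ] W) = finrank ℂ W * finrank ℂ W :=
      Module.finrank_linearMap ℂ ℂ W W
    have h6 : LinearMap.range (LinearMap.trace ℂ W) = ⊤ := by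
      rw [LinearMap.range_eq_top]
      intro c
      have hne : ((finrank ℂ W : ℕ) : ℂ) ≠ 0 := by
        rw [Nat.cast_ne_zero]; omega
      refine ⟨(c / finrank ℂ W) • 1, ?_⟩
      rw [map_smul, LinearMap.trace_one, smul_eq_mul, div_mul_cancel₀ _ hne]
    rw [h6, finrank_top, Module.finrank_self] at h4
    rw [← h5, ← h4, add_comm]
  have h4 : finrank ℂ (core L W) = finrank ℂ (core L W : Submodule ℂ L) := rfl
  rw [h4, h2, h3]

include hd hsl in
/-- The complementary ideal acts by zero on every module the kernel of which does not act by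
zero on `W`. -/
theorem core_zero {V : Type*} [AddCommGroup V] [Module ℂ V] [LieRingModule L V] [LieModule ℂ L V]
    (hV : ¬ ∀ a : L, (∀ v : V, ⁅a, v⁆ = 0) → ∀ w : W, ⁅a, w⁆ = 0) {a : L} (ha : a ∈ core L W)
    (v : V) : ⁅a, v⁆ = 0 := by
  obtain ⟨J', h1, h2⟩ := exists_ideal (W := W) hd hsl trace_zero (Finset.univ : Finset Bool)
    (fun t => if t then LieModule.ker ℂ L V else core L W) (by
      intro t _ h
      cases t with
      | true =>
        exact hV fun a ha w => h a (by
          rw [if_pos rfl]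
          exact (LieModule.mem_ker (R := ℂ) (M := V) (x := a)).mpr ha) w
      | false =>
        obtain ⟨A, B, hA, hB, hAB⟩ := exists_comm (W := W) hd
        apply hAB
        have h3 : ∀ Y : Module.End ℂ W, LinearMap.trace ℂ W Y = 0 → Y = 0 := by
          intro Y hY
          obtain ⟨a, ha, h'⟩ := core_surj hsl Y hY
          refine LinearMap.ext fun w => ?_
          rw [← h' w]
          exact h a (by simpa using ha) w
        rw [h3 A hA, zero_mul, mul_zero, sub_zero])
  obtain ⟨y, hy, hy'⟩ := h2 _ (trace_zero (W := W) a)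
  have h3 : y ∈ LieModule.ker ℂ L V := by simpa using h1 y hy true (Finset.mem_univ _)
  have h4 : y ∈ core L W := by simpa using h1 y hy false (Finset.mem_univ _)
  have h5 : a - y = 0 := core_faithful (W := W) ((core L W).sub_mem ha h4) fun w => by
    rw [sub_lie, hy' w]
    exact sub_self _
  rw [sub_eq_zero.mp h5]
  exact (LieModule.mem_ker (R := ℂ) (M := V) (x := y)).mp h3 v

include hd hsl in
/-- Separation for a semisimple Lie algebra: an ideal which acts faithfully on `W`, through all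
the endomorphisms of trace zero, and by zero on all the modules which have small images. -/
theorem core_small {V : Type*} [AddCommGroup V] [Module ℂ V] [LieRingModule L V] [LieModule ℂ L V]
    [FiniteDimensional ℂ V]
    (hsmall : finrank ℂ (LinearMap.range
      (LieModule.toEnd ℂ L V : L →ₗ[ℂ] Module.End ℂ V)) + 1 < finrank ℂ W * finrank ℂ W)
    {a : L} (ha : a ∈ core L W) (v : V) : ⁅a, v⁆ = 0 := by
  refine core_zero hd hsl (fun h => ?_) ha v
  have h3 := le_finrank_range hsl (LieModule.toEnd ℂ L V : L →ₗ[ℂ] Module.End ℂ V)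
    (fun a ha => h a fun v => congrArg (fun f : Module.End ℂ V => f v) ha)
  omega

include hd hsl in
/-- the same statement for modules of small dimension -/
theorem core_of_dim {V : Type*} [AddCommGroup V] [Module ℂ V] [LieRingModule L V]
    [LieModule ℂ L V] [FiniteDimensional ℂ V] (hV : finrank ℂ V < finrank ℂ W)
    {a : L} (ha : a ∈ core L W) (v : V) : ⁅a, v⁆ = 0 := by
  refine core_small hd hsl ?_ ha v
  have h1 := Submodule.finrank_le (LinearMap.range
    (LieModule.toEnd ℂ L V : L →ₗ[ℂ] Module.End ℂ V))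
  have h2 : finrank ℂ (Module.End ℂ V) = finrank ℂ V * finrank ℂ V :=
    Module.finrank_linearMap ℂ ℂ _ _
  have h4 : (finrank ℂ V + 1) * (finrank ℂ V + 1) ≤ finrank ℂ W * finrank ℂ W :=
    Nat.mul_le_mul hV hV
  have h5 : finrank ℂ V * finrank ℂ V + 1 < finrank ℂ W * finrank ℂ W := by
    rcases Nat.eq_zero_or_pos (finrank ℂ V) with h | h
    · rw [h]
      nlinarith
    · nlinarith
  omega

end killing

end Pool.Agent.Helper24.Sep
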